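import Pool.Agent.TH542.Had.Trans

set_option autoImplicit false
set_option linter.unusedSectionVars false

/-!
Convex corners: the bound `2 ^ n - 1` holds exactly when the body is not a parallelotope.
-/

open Set Topology
open Pool.Agent.H843R3.Had2
open Pool.Agent.W677.Summand

namespace Pool.Agent.TH542.Had

variable {n : ℕ} {K : Set (Eu n)} {φ : Fin n → (Eu n →ₗ[ℝ] ℝ)} {v : Fin n → Eu n} {a : Fin n → ℝ}

theorem corner_upper (h : Frame K φ v a) (hK : Bdy K)
    (hbox : ¬ ∃ β : Fin n → ℝ, K = {x | ∀ i, a i ≤ φ i x ∧ φ i x ≤ β i}) : Cov K (2 ^ n - 1) := by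
  classical
  obtain ⟨k, ι, hk, hι⟩ := exists_coords h
  have hk0 : k = 0 := by omega
  subst hk0
  obtain ⟨a₀, ha₀⟩ := foot_ne h (hK.2.2.mono interior_subset)
  obtain ⟨hK1, hK2, hK3⟩ := hK
  have hc := Kc_compact h hι hK2 a₀
  have hne : (Kc ι v a₀ K).Nonempty := (Kc_ne h hι hK3 a₀).mono interior_subset
  have hd := Kc_down h hι hK1 ha₀.2
  have hb : ∀ i : Fin n, ∃ p ∈ Kc ι v a₀ K, ∀ q ∈ Kc ι v a₀ K, q.2 i ≤ p.2 i := by
    intro i
    have hci : Continuous (fun p : Eu 0 × (Fin n → ℝ) => p.2 i) := by fun_prop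
    obtain ⟨p, hp, h1⟩ := hc.exists_isMaxOn hne hci.continuousOn
    exact ⟨p, hp, fun q hq => h1 hq⟩
  choose P hP hP1 using hb
  by_cases hbK : ((0 : Eu 0), fun i => (P i).2 i) ∈ Kc ι v a₀ K
  · exfalso
    refine hbox ⟨fun i => a i + (P i).2 i, ?_⟩
    ext x
    set p := (Homeo h hι a₀).symm x with hp
    have hpx : a₀ + lin ι v p = x := by
      rw [← Homeo_apply h hι, hp, Homeomorph.apply_symm_apply]
    have hphi : ∀ i, φ i x = a i + p.2 i := by
      intro i
      rw [← hpx, map_add, ha₀.2 i, phi_lin h hι]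
    constructor
    · intro hx i
      have hpK : p ∈ Kc ι v a₀ K := by
        show a₀ + lin ι v p ∈ K
        rw [hpx]; exact hx
      have h1 := hP1 i p hpK
      have h2 := h.supp x hx i
      refine ⟨h2, ?_⟩
      rw [hphi]
      linarith
    · intro hx
      have h1 : (p.1, p.2) ∈ Kc ι v a₀ K := by
        rw [Subsingleton.elim p.1 (0 : Eu 0)]
        refine hd.down 0 _ p.2 hbK (fun i => ?_) (fun i => ?_)
        · have := (hx i).1
          rw [hphi] at this
          linarith
        · have := (hx i).2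
          rw [hphi] at this
          linarith
      have h2 : a₀ + lin ι v p ∈ K := h1
      rwa [hpx] at h2
  · obtain ⟨D, hD, hD1⟩ := hd.dirs' (Kc_convex hK1 a₀) hc (Kc_ne h hι hK3 a₀)
      (fun i => (P i).2 i) (fun i => ⟨P i, hP i, rfl⟩) hbK
    obtain ⟨T, hT, h1⟩ := cov_of_dirs h hι hK1 hK2 a₀ D hD1
    exact ⟨T, hT.trans hD, h1⟩

theorem corner_lower (h : Frame K φ v a) (hK : Bdy K)
    (hbox : ∃ β : Fin n → ℝ, K = {x | ∀ i, a i ≤ φ i x ∧ φ i x ≤ β i}) : ¬ Cov K (2 ^ n - 1) := by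
  classical
  rintro ⟨T, hT, hcov⟩
  obtain ⟨β, hβ⟩ := hbox
  obtain ⟨z, hz⟩ := hK.2.2
  have hwid : ∀ y ∈ interior K, ∀ i, a i < φ i y ∧ φ i y < β i := by
    intro y hy i
    constructor
    · obtain ⟨ε, hε, h1⟩ := Co.of_interior hy (-(v i))
      have h2 : y + ε • -(v i) ∈ K := interior_subset h1
      rw [hβ] at h2
      have h3 := (h2 i).1
      rw [map_add, map_smul, map_neg, h.dual, if_pos rfl] at h3
      simp only [smul_eq_mul, mul_neg, mul_one] at h3
      linarith
    · obtain ⟨ε, hε, h1⟩ := Co.of_interior hy (v i)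
      have h2 : y + ε • (v i) ∈ K := interior_subset h1
      rw [hβ] at h2
      have h3 := (h2 i).2
      rw [map_add, map_smul, h.dual, if_pos rfl] at h3
      simp only [smul_eq_mul, mul_one] at h3
      linarith
  have hab : ∀ i, a i < β i := fun i => (hwid z hz i).1.trans (hwid z hz i).2
  set X : Finset (Fin n) → Eu n := fun S => ∑ j, (if j ∈ S then β j else a j) • v j with hX
  have hXi : ∀ S i, φ i (X S) = if i ∈ S then β i else a i := fun S i => by
    rw [hX]
    exact phi_sum h _ i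
  have hXK : ∀ S, X S ∈ K := by
    intro S
    rw [hβ]
    intro i
    rw [hXi]
    split_ifs
    · exact ⟨(hab i).le, le_rfl⟩
    · exact ⟨le_rfl, (hab i).le⟩
  have h1 : ∀ S : Finset (Fin n), ∃ t ∈ T, ∃ y ∈ interior K, t + y = X S := by
    intro S
    have h2 := hcov (hXK S)
    simp only [mem_iUnion, mem_image, exists_prop] at h2
    exact h2
  choose t ht y hy hty using h1
  have hlt : T.card < (Finset.univ : Finset (Finset (Fin n))).card := by
    rw [Finset.card_univ, Fintype.card_finset, Fintype.card_fin]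
    have := Nat.pos_of_ne_zero (pow_ne_zero n (two_ne_zero (α := ℕ)))
    omega
  obtain ⟨S, -, S', -, hne, hSS⟩ := Finset.exists_ne_map_eq_of_card_lt_of_maps_to hlt
    (f := t) (fun S _ => ht S)
  have key : ∀ A B : Finset (Fin n), t A = t B → ∀ i, i ∈ A → i ∉ B → False := by
    intro A B hAB i hA hB
    have h3 : φ i (X A) - φ i (X B) = φ i (y A) - φ i (y B) := by
      rw [← hty A, ← hty B, map_add, map_add, hAB]
      ring
    rw [hXi, hXi, if_pos hA, if_neg hB] at h3
    have h4 := hwid _ (hy A) i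
    have h5 := hwid _ (hy B) i
    linarith [h4.2, h5.1]
  apply hne
  ext i
  constructor
  · intro hi
    by_contra hi'
    exact key S S' hSS i hi hi'
  · intro hi
    by_contra hi'
    exact key S' S hSS.symm i hi hi'

theorem corner_iff (h : Frame K φ v a) (hK : Bdy K) :
    Cov K (2 ^ n - 1) ↔ ¬ ∃ β : Fin n → ℝ, K = {x | ∀ i, a i ≤ φ i x ∧ φ i x ≤ β i} :=
  ⟨fun h1 h2 => corner_lower h hK h2 h1, corner_upper h hK⟩

end Pool.Agent.TH542.Had
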