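import Pool.Agent.W677.Summand3

set_option autoImplicit false
set_option linter.unusedSectionVars false

/-!
Illumination of convex bodies in `U × ℝ^m` which are down-closed in the last `m` coordinates.
-/

open Set Topology
open Pool.Agent.H843R3.Had2
open Pool.Agent.W677.Summand (depth dirs_of_cover)

namespace Pool.Agent.TH542.Had

variable {U : Type*} [NormedAddCommGroup U] [NormedSpace ℝ U] {m : ℕ}
  {K : Set (U × (Fin m → ℝ))}

/-- down-closed in the last coordinates -/
structure Down (K : Set (U × (Fin m → ℝ))) : Prop where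
  pos : ∀ p ∈ K, ∀ i, 0 ≤ p.2 i
  down : ∀ (x : U) (y y' : Fin m → ℝ), (x, y) ∈ K → (∀ i, 0 ≤ y' i) → (∀ i, y' i ≤ y i) →
    (x, y') ∈ K

/-- the base -/
def base (K : Set (U × (Fin m → ℝ))) : Set U := {x | (x, 0) ∈ K}

theorem Down.int (h : Down K) {x : U} {w q : Fin m → ℝ} (hw : (x, w) ∈ interior K)
    (hq : ∀ i, 0 < q i) (hqw : ∀ i, q i ≤ w i) : (x, q) ∈ interior K := by
  rw [mem_interior_iff_mem_nhds] at hw ⊢
  have hc : Continuous (fun p : U × (Fin m → ℝ) => (p.1, p.2 + (w - q))) := by fun_prop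
  have h1 : ∀ᶠ p in 𝓝 ((x, q) : U × (Fin m → ℝ)), (p.1, p.2 + (w - q)) ∈ K := by
    have h2 := hc.tendsto (x, q)
    have h3 : (x, q + (w - q)) = (x, w) := by rw [add_sub_cancel]
    simp only at h2
    rw [h3] at h2
    exact h2.eventually hw
  have h2 : ∀ᶠ p in 𝓝 ((x, q) : U × (Fin m → ℝ)), ∀ i, 0 < p.2 i := by
    rw [Filter.eventually_all]
    intro i
    have hci : Continuous (fun p : U × (Fin m → ℝ) => p.2 i) := by fun_prop
    exact (hci.tendsto (x, q)).eventually (lt_mem_nhds (hq i))
  filter_upwards [h1, h2] with p hp1 hp2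
  have := h.down p.1 (p.2 + (w - q)) p.2 hp1 (fun i => (hp2 i).le) (fun i => by
    have := hqw i
    simp only [Pi.add_apply, Pi.sub_apply]
    linarith)
  exact this

theorem Down.to_base (h : Down K) {x : U} {y : Fin m → ℝ} (hx : (x, y) ∈ K) : x ∈ base K :=
  h.down x y 0 hx (fun _ => le_rfl) (fun i => h.pos _ hx i)

/-- interior points have positive last coordinates -/
theorem Down.pos_int (h : Down K) {p : U × (Fin m → ℝ)} (hp : p ∈ interior K) (i : Fin m) :
    0 < p.2 i := by
  obtain ⟨ε, hε, h1⟩ := Co.of_interior hp ((0 : U), -(Pi.single i (1 : ℝ)))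
  have h2 := h.pos _ (interior_subset h1) i
  simp at h2
  linarith

/-- `- e_i` is a feasible direction at points with positive `i`-th coordinate -/
theorem Down.feas (h : Down K) (hK : Convex ℝ K) {x : U} {y t : Fin m → ℝ} (hx : (x, y) ∈ K)
    (ht : ∀ i, 0 ≤ t i) (h0 : ∀ i, y i = 0 → t i = 0) :
    Cn K (x, y) ((0 : U), -t) := by
  have hsum : ((0 : U), -t) = ∑ i : Fin m, ((0 : U), -(Pi.single i (t i))) := by
    refine Prod.ext ?_ ?_
    · simp [Prod.fst_sum]
    · rw [Prod.snd_sum]
      simp only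
      rw [Finset.sum_neg_distrib, Finset.univ_sum_single]
  rw [hsum]
  refine Cn.sum hK hx _ _ fun i _ => ?_
  have hyi := h.pos _ hx i
  simp only at hyi
  rcases hyi.eq_or_lt with h1 | h1
  · rw [h0 i h1.symm]
    have : (Pi.single i (0 : ℝ) : Fin m → ℝ) = 0 := Pi.single_zero i
    rw [this, neg_zero]
    exact Cn.zero hx
  · rcases (ht i).eq_or_lt with h2 | h2
    · rw [← h2]
      have : (Pi.single i (0 : ℝ) : Fin m → ℝ) = 0 := Pi.single_zero i
      rw [this, neg_zero]
      exact Cn.zero hx
    · refine ⟨y i / t i, by positivity, ?_⟩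
      have : (x, y) + (y i / t i) • ((0 : U), -(Pi.single i (t i) : Fin m → ℝ)) =
          (x, Function.update y i 0) := by
        refine Prod.ext ?_ ?_
        · simp
        · funext j
          rcases eq_or_ne j i with rfl | hj
          · simp [h2.ne']
          · simp [Pi.single_eq_of_ne hj, Function.update_of_ne hj]
      rw [this]
      refine h.down x y _ hx (fun j => ?_) (fun j => ?_)
      · rcases eq_or_ne j i with rfl | hj
        · simp
        · rw [Function.update_of_ne hj]; exact h.pos _ hx j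
      · rcases eq_or_ne j i with rfl | hj
        · simp [h1.le]
        · rw [Function.update_of_ne hj]

/-- **The core.** -/
theorem Down.co (h : Down K) (hK : Convex ℝ K) {x v : U} {y u q : Fin m → ℝ} (hx : (x, y) ∈ K)
    (hq : (x + v, q) ∈ interior K) (h1 : ∀ i, u i ≤ q i - y i)
    (h2 : ∀ i, y i = 0 → u i = q i - y i) : Co K (x, y) (v, u) := by
  have h3 := Co.of hK (h.feas hK hx (t := fun i => q i - y i - u i) (fun i => by
    have := h1 i
    linarith) (fun i hi => by
    have := h2 i hi
    linarith)) hq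
  have h4 : ((0 : U), -(fun i => q i - y i - u i)) + ((x + v, q) - (x, y)) = (v, u) := by
    refine Prod.ext ?_ ?_
    · simp
    · funext i
      simp
  rwa [h4] at h3

theorem base_convex (hK : Convex ℝ K) : Convex ℝ (base K) := by
  rintro x hx y hy a b ha hb hab
  have := hK hx hy ha hb hab
  show (a • x + b • y, (0 : Fin m → ℝ)) ∈ K
  simpa using this

theorem base_compact (hK : IsCompact K) : IsCompact (base K) := by
  have h1 : IsCompact (K ∩ {p | p.2 = 0}) :=
    hK.inter_right (isClosed_eq continuous_snd continuous_const)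
  have h2 : base K = Prod.fst '' (K ∩ {p | p.2 = 0}) := by
    ext x
    constructor
    · intro hx
      exact ⟨(x, 0), ⟨hx, rfl⟩, rfl⟩
    · rintro ⟨⟨a, b⟩, ⟨h3, h4⟩, rfl⟩
      have h5 : b = 0 := h4
      subst h5
      exact h3
  rw [h2]
  exact h1.image continuous_fst

theorem Down.base_interior (h : Down K) (hi : (interior K).Nonempty) :
    (interior (base K)).Nonempty := by
  obtain ⟨p, hp⟩ := hi
  refine ⟨p.1, ?_⟩
  have h1 : Prod.fst '' interior K ⊆ base K := by
    rintro _ ⟨p, hp, rfl⟩
    exact h.to_base (y := p.2) (interior_subset hp)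
  have h2 : IsOpen (Prod.fst '' interior K) := isOpenMap_fst _ isOpen_interior
  exact interior_maximal h1 h2 ⟨p, hp, rfl⟩

/-- Uniform height over the illuminated base points. -/
theorem Down.height (h : Down K) (hK : Convex ℝ K) (hKc : IsCompact K)
    (hKi : (interior K).Nonempty) (W : Finset U) (hW : ∀ x ∈ base K, ∃ w ∈ W, Co (base K) x w) :
    ∃ r : ℝ, ∃ c : ℝ, 0 < c ∧ ∀ x ∈ base K, ∃ w ∈ W, ∀ q : Fin m → ℝ, (∀ i, 0 < q i) →
      (∀ i, q i ≤ c) → (x + r • w, q) ∈ interior K := by
  classical
  obtain ⟨p₀, hp₀⟩ := hKi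
  obtain ⟨r, hr, hr1⟩ := unif (base_convex hK) (base_compact hKc) subset_rfl
    (fun v : W => (v : U)) (fun x hx => by
      obtain ⟨v, hv, h2⟩ := hW x hx
      exact ⟨⟨v, hv⟩, h2⟩)
  obtain ⟨ρ, hρ, hρ1⟩ := depth (base_compact hKc) W r (fun x hx => by
    obtain ⟨w, hw⟩ := hr1 x hx
    exact ⟨w, w.2, hw⟩)
  obtain ⟨C, hC⟩ := (base_compact hKc).isBounded.exists_norm_le
  have hp1 : p₀.1 ∈ base K := h.to_base (y := p₀.2) (interior_subset hp₀)
  have hC0 : 0 ≤ C := (norm_nonneg _).trans (hC _ hp1)
  -- a positive lower bound for the last coordinates of `p₀`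
  obtain ⟨δ, hδ, hδ1⟩ : ∃ δ : ℝ, 0 < δ ∧ ∀ i, δ ≤ p₀.2 i := by
    have hne : (insert 1 (Finset.univ.image p₀.2) : Finset ℝ).Nonempty := ⟨1, by simp⟩
    refine ⟨(insert 1 (Finset.univ.image p₀.2) : Finset ℝ).min' hne, ?_, fun i => ?_⟩
    · rw [Finset.lt_min'_iff]
      intro y hy
      rw [Finset.mem_insert, Finset.mem_image] at hy
      rcases hy with rfl | ⟨i, -, rfl⟩
      · exact one_pos
      · exact h.pos_int hp₀ i
    · exact Finset.min'_le _ _ (by simp)
  set ε : ℝ := ρ / (2 * C + 1) with hε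
  have hε0 : 0 < ε := by positivity
  refine ⟨r, ε / (1 + ε) * δ, by positivity, fun x hx => ?_⟩
  obtain ⟨w, hw, hw1⟩ := hρ1 x hx
  refine ⟨w, hw, fun q hq hq1 => ?_⟩
  have h0 : x + r • w ∈ base K := by
    have := hw1 0 (by simpa using hρ.le)
    simpa using this
  have h1 : (x + r • w) + ε • ((x + r • w) - p₀.1) ∈ base K := by
    refine hw1 _ ?_
    rw [norm_smul, Real.norm_of_nonneg hε0.le]
    have h2 : ‖x + r • w - p₀.1‖ ≤ 2 * C := by
      calc ‖x + r • w - p₀.1‖ ≤ ‖x + r • w‖ + ‖p₀.1‖ := norm_sub_le _ _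
        _ ≤ C + C := add_le_add (hC _ h0) (hC _ hp1)
        _ = 2 * C := by ring
    calc ε * ‖x + r • w - p₀.1‖ ≤ ε * (2 * C + 1) :=
          mul_le_mul_of_nonneg_left (by linarith) hε0.le
      _ = ρ := by rw [hε]; field_simp
  have h2 := hK.combo_self_interior_mem_interior (show ((x + r • w) + ε • ((x + r • w) - p₀.1),
    (0 : Fin m → ℝ)) ∈ K from h1) hp₀ (a := 1 / (1 + ε)) (b := ε / (1 + ε)) (by positivity)
    (by positivity) (by field_simp)
  have h3 : (1 / (1 + ε)) • ((x + r • w) + ε • ((x + r • w) - p₀.1), (0 : Fin m → ℝ)) +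
      (ε / (1 + ε)) • p₀ = (x + r • w, (ε / (1 + ε)) • p₀.2) := by
    refine Prod.ext ?_ ?_
    · have h4 : (1 / (1 + ε)) * ε = ε / (1 + ε) := by ring
      have h5 : (1 / (1 + ε)) = 1 - ε / (1 + ε) := by field_simp; ring
      simp only [Prod.fst_add, Prod.smul_fst]
      rw [smul_add (1 / (1 + ε)), smul_smul, smul_sub, h4, h5]
      module
    · simp
  rw [h3] at h2
  refine h.int h2 hq (fun i => (hq1 i).trans ?_)
  simp only [Pi.smul_apply, smul_eq_mul]
  exact mul_le_mul_of_nonneg_left (hδ1 i) (by positivity)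

theorem bound_snd (hKc : IsCompact K) : ∃ R : ℝ, 0 < R ∧ ∀ p ∈ K, ∀ i, p.2 i ≤ R := by
  obtain ⟨C, hC⟩ := hKc.isBounded.exists_norm_le
  refine ⟨|C| + 1, by positivity, fun p hp i => ?_⟩
  calc p.2 i ≤ ‖p.2 i‖ := Real.le_norm_self _
    _ ≤ ‖p.2‖ := norm_le_pi_norm _ _
    _ ≤ ‖p‖ := norm_snd_le p
    _ ≤ C := hC p hp
    _ ≤ |C| + 1 := by linarith [le_abs_self C]

/-- `2 ^ m |W|` directions illuminate `K`. -/
theorem Down.dirs (h : Down K) (hK : Convex ℝ K) (hKc : IsCompact K)
    (hKi : (interior K).Nonempty) (W : Finset U) (hW : ∀ x ∈ base K, ∃ w ∈ W, Co (base K) x w) :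
    ∃ D : Finset (U × (Fin m → ℝ)), D.card ≤ 2 ^ m * W.card ∧ ∀ p ∈ K, ∃ d ∈ D, Co K p d := by
  classical
  obtain ⟨r, c, hc, h1⟩ := h.height hK hKc hKi W hW
  obtain ⟨R, hR, hR1⟩ := bound_snd hKc
  refine ⟨((Finset.univ : Finset (Finset (Fin m))) ×ˢ W).image
    (fun q => (r • q.2, fun i => if i ∈ q.1 then -R else c / 2)), ?_, ?_⟩
  · refine Finset.card_image_le.trans ?_
    rw [Finset.card_product, Finset.card_univ, Fintype.card_finset, Fintype.card_fin]
  · rintro ⟨x, y⟩ hp
    obtain ⟨w, hw, h2⟩ := h1 x (h.to_base hp)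
    set S : Finset (Fin m) := Finset.univ.filter (fun i => c / 2 < y i) with hS
    refine ⟨(r • w, fun i => if i ∈ S then -R else c / 2), ?_, ?_⟩
    · rw [Finset.mem_image]
      exact ⟨(S, w), by simp [hw], rfl⟩
    · refine h.co hK (q := fun i => if i ∈ S then c else y i + c / 2) hp (h2 _ ?_ ?_) ?_ ?_
      · intro i
        split_ifs with hi
        · exact hc
        · have := h.pos _ hp i
          simp only at this
          positivity
      · intro i
        split_ifs with hi
        · exact le_rfl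
        · have : ¬ c / 2 < y i := by simpa [hS] using hi
          linarith
      · intro i
        have h3 := hR1 _ hp i
        simp only at h3
        split_ifs with hi
        · linarith
        · linarith
      · intro i hi0
        have : i ∉ S := by
          rw [hS]
          simp only [Finset.mem_filter, Finset.mem_univ, true_and, hi0]
          linarith
        rw [if_neg this, if_neg this]
        ring

/-- One direction can be saved if the base is a point and `K` is not a box. -/
theorem Down.dirs' [Subsingleton U] (h : Down K) (hK : Convex ℝ K) (hKc : IsCompact K)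
    (hKi : (interior K).Nonempty) (b : Fin m → ℝ) (hb : ∀ i, ∃ p ∈ K, p.2 i = b i)
    (hbK : ((0 : U), b) ∉ K) :
    ∃ D : Finset (U × (Fin m → ℝ)), D.card ≤ 2 ^ m - 1 ∧ ∀ p ∈ K, ∃ d ∈ D, Co K p d := by
  classical
  obtain ⟨p₀, hp₀⟩ := hKi
  obtain ⟨r, c, hc, h1⟩ := h.height hK hKc ⟨p₀, hp₀⟩ {0} (fun x hx => by
    refine ⟨0, Finset.mem_singleton_self _, 1, one_pos, ?_⟩
    obtain ⟨z, hz⟩ := h.base_interior ⟨p₀, hp₀⟩
    rwa [Subsingleton.elim (x + (1 : ℝ) • (0 : U)) z])
  obtain ⟨R, hR, hR1⟩ := bound_snd hKc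
  -- a gap
  obtain ⟨γ, hγ, hγ1⟩ : ∃ γ : ℝ, 0 < γ ∧ ∀ p ∈ K, ∃ i, p.2 i ≤ b i - γ := by
    have h2 : Kᶜ ∈ 𝓝 ((0 : U), b) := hKc.isClosed.isOpen_compl.mem_nhds hbK
    obtain ⟨γ, hγ, h3⟩ := Metric.mem_nhds_iff.1 h2
    refine ⟨γ / 2, by positivity, fun p hp => ?_⟩
    by_contra hcon
    push Not at hcon
    have hlt : ∀ i, b i - γ / 2 < p.2 i := hcon
    -- the point `min p b`
    have h4 : ((0 : U), fun i => min (p.2 i) (b i)) ∈ K := by
      rw [← Subsingleton.elim p.1 0]
      obtain hb0 : ∀ i, 0 ≤ b i := fun i => by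
        obtain ⟨p', hp', hp'i⟩ := hb i
        rw [← hp'i]; exact h.pos _ hp' i
      refine h.down p.1 p.2 _ hp (fun i => le_min (h.pos _ hp i) (hb0 i)) (fun i => min_le_left _ _)
    refine h3 ?_ h4
    rw [Metric.mem_ball, Prod.dist_eq, dist_self, max_lt_iff]
    refine ⟨hγ, lt_of_le_of_lt ((dist_pi_le_iff (r := γ / 2) (by positivity)).2 fun i => ?_)
      (by linarith)⟩
    rw [Real.dist_eq, abs_le]
    show -(γ / 2) ≤ min (p.2 i) (b i) - b i ∧ min (p.2 i) (b i) - b i ≤ γ / 2
    constructor
    · have := hlt i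
      rcases le_total (p.2 i) (b i) with h5 | h5
      · rw [min_eq_left h5]; linarith
      · rw [min_eq_right h5]; linarith
    · have := min_le_right (p.2 i) (b i)
      linarith
  -- interior points close to the points with extreme coordinates
  obtain ⟨δ, hδ, hδ1⟩ : ∃ δ : ℝ, 0 < δ ∧ ∀ i : Fin m, ∀ q : Fin m → ℝ, (∀ j, 0 < q j) →
      q i ≤ b i - γ / 2 → (∀ j, j ≠ i → q j ≤ δ) → ∀ x : U, (x, q) ∈ interior K := by
    have h2 : ∀ i : Fin m, ∃ δ : ℝ, 0 < δ ∧ ∀ q : Fin m → ℝ, (∀ j, 0 < q j) →
      q i ≤ b i - γ / 2 → (∀ j, j ≠ i → q j ≤ δ) → ∀ x : U, (x, q) ∈ interior K := by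
      intro i
      obtain ⟨p, hp, hpi⟩ := hb i
      have hbi : 0 ≤ b i := by rw [← hpi]; exact h.pos _ hp i
      set μ : ℝ := min (1 / 2) (γ / (2 * (b i + 1))) with hμ
      have hμ0 : 0 < μ := lt_min (by norm_num) (by positivity)
      have hμ1 : μ ≤ 1 / 2 := min_le_left _ _
      have hμ2 : μ * b i ≤ γ / 2 := by
        have h3 : μ ≤ γ / (2 * (b i + 1)) := min_le_right _ _
        calc μ * b i ≤ μ * (b i + 1) := mul_le_mul_of_nonneg_left (by linarith) hμ0.le
          _ ≤ γ / (2 * (b i + 1)) * (b i + 1) := mul_le_mul_of_nonneg_right h3 (by linarith)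
          _ = γ / 2 := by field_simp
      have h3 := hK.combo_self_interior_mem_interior hp hp₀ (a := 1 - μ) (b := μ) (by linarith)
        hμ0 (by ring)
      obtain ⟨δ, hδ, hδ1⟩ : ∃ δ : ℝ, 0 < δ ∧ ∀ j, δ ≤ ((1 - μ) • p + μ • p₀).2 j := by
        have hne : (insert 1 (Finset.univ.image ((1 - μ) • p + μ • p₀).2) : Finset ℝ).Nonempty :=
          ⟨1, by simp⟩
        refine ⟨(insert 1 (Finset.univ.image ((1 - μ) • p + μ • p₀).2) : Finset ℝ).min' hne, ?_,
          fun i => ?_⟩
        · rw [Finset.lt_min'_iff]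
          intro y hy
          rw [Finset.mem_insert, Finset.mem_image] at hy
          rcases hy with rfl | ⟨i, -, rfl⟩
          · exact one_pos
          · exact h.pos_int h3 i
        · exact Finset.min'_le _ _ (by simp)
      refine ⟨δ, hδ, fun q hq hqi hqj x => ?_⟩
      rw [Subsingleton.elim x ((1 - μ) • p + μ • p₀).1]
      refine h.int (w := ((1 - μ) • p + μ • p₀).2) h3 hq fun j => ?_
      rcases eq_or_ne j i with rfl | hj
      · refine hqi.trans ?_
        have h4 := h.pos_int hp₀ j
        simp only [Prod.snd_add, Prod.smul_snd, Pi.add_apply, Pi.smul_apply, smul_eq_mul, hpi]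
        nlinarith
      · exact (hqj j hj).trans (hδ1 j)
    choose δ hδ hδ1 using h2
    have hne : (insert 1 (Finset.univ.image δ) : Finset ℝ).Nonempty := ⟨1, by simp⟩
    refine ⟨(insert 1 (Finset.univ.image δ) : Finset ℝ).min' hne, ?_, fun i q hq hqi hqj => ?_⟩
    · rw [Finset.lt_min'_iff]
      intro y hy
      rw [Finset.mem_insert, Finset.mem_image] at hy
      rcases hy with rfl | ⟨i, -, rfl⟩
      · exact one_pos
      · exact hδ i
    · exact hδ1 i q hq hqi fun j hj => (hqj j hj).trans (Finset.min'_le _ _ (by simp))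
  set u : ℝ := min (c / 2) (γ / 2) with hu
  have hu0 : 0 < u := lt_min (by positivity) (by positivity)
  have hu1 : u ≤ c / 2 := min_le_left _ _
  have hu2 : u ≤ γ / 2 := min_le_right _ _
  refine ⟨((Finset.univ : Finset (Finset (Fin m))).erase Finset.univ).image
    (fun S => ((0 : U), fun i => if i ∈ S then -R else u)), ?_, ?_⟩
  · refine Finset.card_image_le.trans ?_
    rw [Finset.card_erase_of_mem (Finset.mem_univ _), Finset.card_univ, Fintype.card_finset,
      Fintype.card_fin]
  · rintro ⟨x, y⟩ hp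
    set S : Finset (Fin m) := Finset.univ.filter (fun i => c / 2 < y i) with hS
    by_cases hSu : S = Finset.univ
    · obtain ⟨i, hi⟩ := hγ1 _ hp
      simp only at hi
      have hyi : ∀ j, 0 < y j := by
        intro j
        have : j ∈ S := by rw [hSu]; exact Finset.mem_univ _
        rw [hS, Finset.mem_filter] at this
        linarith [this.2]
      refine ⟨((0 : U), fun j => if j ∈ Finset.univ.erase i then -R else u), ?_, ?_⟩
      · rw [Finset.mem_image]
        refine ⟨Finset.univ.erase i, ?_, rfl⟩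
        rw [Finset.mem_erase]
        refine ⟨fun h5 => ?_, Finset.mem_univ _⟩
        have := h5 ▸ Finset.mem_univ i
        simp at this
      · refine h.co hK (q := fun j => if j ∈ Finset.univ.erase i then δ else y j + u) hp
          (hδ1 i _ ?_ ?_ ?_ _) ?_ ?_
        · intro j
          have := hyi j
          split_ifs
          · exact hδ
          · positivity
        · rw [if_neg (by simp)]
          linarith
        · intro j hj
          rw [if_pos (by simp [hj])]
        · intro j
          have h3 := hR1 _ hp j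
          simp only at h3
          split_ifs
          · linarith
          · linarith
        · intro j hj
          exact absurd hj (hyi j).ne'
    · refine ⟨((0 : U), fun i => if i ∈ S then -R else u), ?_, ?_⟩
      · rw [Finset.mem_image]
        exact ⟨S, by simp [hSu], rfl⟩
      · obtain ⟨w, hw, h2⟩ := h1 x (h.to_base hp)
        have hint : ∀ q : Fin m → ℝ, (∀ i, 0 < q i) → (∀ i, q i ≤ c) →
            (x + 0, q) ∈ interior K := by
          intro q hq hq1
          rw [Subsingleton.elim (x + 0) (x + r • w)]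
          exact h2 q hq hq1
        refine h.co hK (q := fun i => if i ∈ S then c else y i + u) hp (hint _ ?_ ?_) ?_ ?_
        · intro i
          split_ifs with hi
          · exact hc
          · have := h.pos _ hp i
            simp only at this
            positivity
        · intro i
          split_ifs with hi
          · exact le_rfl
          · have : ¬ c / 2 < y i := by simpa [hS] using hi
            linarith
        · intro i
          have h3 := hR1 _ hp i
          simp only at h3
          split_ifs with hi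
          · linarith
          · linarith
        · intro i hi0
          have : i ∉ S := by
            rw [hS]
            simp only [Finset.mem_filter, Finset.mem_univ, true_and, hi0]
            linarith
          rw [if_neg this, if_neg this]
          ring

end Pool.Agent.TH542.Had
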