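import Pool.Agent.TH542.Had.Down

set_option autoImplicit false
set_option linter.unusedSectionVars false

/-!
From `U × ℝ^m` to `ℝ^n`.
-/

open Set Topology
open Pool.Agent.H843R3.Had2
open Pool.Agent.W677.Summand

namespace Pool.Agent.TH542.Had

variable {n m k : ℕ}

/-- `K` lies in the half spaces `φ i ≥ a i`, and the projections along `v i` onto the hyperplanes
`φ i = a i` map `K` into itself. -/
structure Frame (K : Set (Eu n)) (φ : Fin m → (Eu n →ₗ[ℝ] ℝ)) (v : Fin m → Eu n)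
    (a : Fin m → ℝ) : Prop where
  dual : ∀ i j, φ i (v j) = if i = j then 1 else 0
  supp : ∀ x ∈ K, ∀ i, a i ≤ φ i x
  proj : ∀ x ∈ K, ∀ i, x - (φ i x - a i) • v i ∈ K

variable {K : Set (Eu n)} {φ : Fin m → (Eu n →ₗ[ℝ] ℝ)} {v : Fin m → Eu n} {a : Fin m → ℝ}

theorem phi_sum (h : Frame K φ v a) (y : Fin m → ℝ) (i : Fin m) :
    φ i (∑ j, y j • v j) = y i := by
  rw [map_sum]
  simp only [map_smul, h.dual, smul_eq_mul, mul_ite, mul_one, mul_zero]
  rw [Finset.sum_ite_eq]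
  simp

/-- the common kernel -/
def ker (φ : Fin m → (Eu n →ₗ[ℝ] ℝ)) : Submodule ℝ (Eu n) := LinearMap.ker (LinearMap.pi φ)

theorem mem_ker {x : Eu n} : x ∈ ker φ ↔ ∀ i, φ i x = 0 := by
  unfold ker
  rw [LinearMap.mem_ker, funext_iff]
  rfl

theorem finrank_ker (h : Frame K φ v a) : Module.finrank ℝ (ker φ) + m = n := by
  have h1 := LinearMap.finrank_range_add_finrank_ker (LinearMap.pi φ)
  have h2 : LinearMap.range (LinearMap.pi φ) = ⊤ := by
    rw [LinearMap.range_eq_top]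
    intro y
    refine ⟨∑ j, y j • v j, ?_⟩
    funext i
    exact phi_sum h y i
  rw [h2, finrank_top, Module.finrank_fin_fun, finrank_euclideanSpace, Fintype.card_fin] at h1
  unfold ker
  omega

/-- the linear part of the coordinates -/
noncomputable def lin (ι : Eu k →ₗᵢ[ℝ] Eu n) (v : Fin m → Eu n) :
    (Eu k × (Fin m → ℝ)) →ₗ[ℝ] Eu n :=
  ι.toLinearMap.coprod (Fintype.linearCombination ℝ v)

theorem lin_apply (ι : Eu k →ₗᵢ[ℝ] Eu n) (v : Fin m → Eu n) (p : Eu k × (Fin m → ℝ)) :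
    lin ι v p = ι p.1 + ∑ j, p.2 j • v j := by
  unfold lin
  rw [LinearMap.coprod_apply, Fintype.linearCombination_apply]
  rfl

variable {ι : Eu k →ₗᵢ[ℝ] Eu n}

theorem phi_lin (h : Frame K φ v a) (hι : ∀ x, x ∈ ker φ ↔ ∃ u, ι u = x)
    (p : Eu k × (Fin m → ℝ)) (i : Fin m) : φ i (lin ι v p) = p.2 i := by
  rw [lin_apply, map_add, phi_sum h, mem_ker.1 ((hι _).2 ⟨p.1, rfl⟩) i, zero_add]

theorem lin_bij (h : Frame K φ v a) (hι : ∀ x, x ∈ ker φ ↔ ∃ u, ι u = x) :
    Function.Bijective (lin ι v) := by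
  constructor
  · rw [← LinearMap.ker_eq_bot, LinearMap.ker_eq_bot']
    intro p hp
    have h1 : p.2 = 0 := by
      funext i
      rw [← phi_lin h hι p i, hp, map_zero]
      rfl
    have h2 : ι p.1 = 0 := by
      rw [lin_apply, h1] at hp
      simpa using hp
    have h3 : p.1 = 0 := by
      apply ι.injective
      rw [h2, map_zero]
    exact Prod.ext h3 h1
  · intro x
    have h1 : x - ∑ j, φ j x • v j ∈ ker φ := by
      rw [mem_ker]
      intro i
      rw [map_sub, phi_sum h, sub_self]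
    obtain ⟨u, hu⟩ := (hι _).1 h1
    refine ⟨(u, fun j => φ j x), ?_⟩
    rw [lin_apply]
    simp only [hu]
    rw [sub_add_cancel]

/-- the linear part as an equivalence -/
noncomputable def Leq (h : Frame K φ v a) (hι : ∀ x, x ∈ ker φ ↔ ∃ u, ι u = x) :
    (Eu k × (Fin m → ℝ)) ≃L[ℝ] Eu n :=
  (LinearEquiv.ofBijective (lin ι v) (lin_bij h hι)).toContinuousLinearEquiv

theorem Leq_apply (h : Frame K φ v a) (hι : ∀ x, x ∈ ker φ ↔ ∃ u, ι u = x)
    (p : Eu k × (Fin m → ℝ)) : Leq h hι p = lin ι v p := rfl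

/-- the coordinates -/
noncomputable def Homeo (h : Frame K φ v a) (hι : ∀ x, x ∈ ker φ ↔ ∃ u, ι u = x) (a₀ : Eu n) :
    (Eu k × (Fin m → ℝ)) ≃ₜ Eu n :=
  (Leq h hι).toHomeomorph.trans (Homeomorph.addLeft a₀)

theorem Homeo_apply (h : Frame K φ v a) (hι : ∀ x, x ∈ ker φ ↔ ∃ u, ι u = x) (a₀ : Eu n)
    (p : Eu k × (Fin m → ℝ)) : Homeo h hι a₀ p = a₀ + lin ι v p := rfl

/-- `K` in coordinates -/
def Kc (ι : Eu k →ₗᵢ[ℝ] Eu n) (v : Fin m → Eu n) (a₀ : Eu n) (K : Set (Eu n)) :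
    Set (Eu k × (Fin m → ℝ)) := {p | a₀ + lin ι v p ∈ K}

theorem Kc_eq (h : Frame K φ v a) (hι : ∀ x, x ∈ ker φ ↔ ∃ u, ι u = x) (a₀ : Eu n) :
    Kc ι v a₀ K = Homeo h hι a₀ ⁻¹' K := rfl

theorem Kc_int (h : Frame K φ v a) (hι : ∀ x, x ∈ ker φ ↔ ∃ u, ι u = x) (a₀ : Eu n)
    (p : Eu k × (Fin m → ℝ)) : p ∈ interior (Kc ι v a₀ K) ↔ a₀ + lin ι v p ∈ interior K := by
  rw [Kc_eq h hι, ← (Homeo h hι a₀).preimage_interior]
  rfl

theorem Kc_convex (hK : Convex ℝ K) (a₀ : Eu n) : Convex ℝ (Kc ι v a₀ K) := by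
  rintro x hx y hy s t hs ht hst
  show a₀ + lin ι v (s • x + t • y) ∈ K
  have h1 : a₀ + lin ι v (s • x + t • y) = s • (a₀ + lin ι v x) + t • (a₀ + lin ι v y) := by
    rw [map_add, map_smul, map_smul]
    have : a₀ = s • a₀ + t • a₀ := by rw [← add_smul, hst, one_smul]
    nth_rewrite 1 [this]
    module
  rw [h1]
  exact hK hx hy hs ht hst

theorem Kc_compact (h : Frame K φ v a) (hι : ∀ x, x ∈ ker φ ↔ ∃ u, ι u = x)
    (hK : IsCompact K) (a₀ : Eu n) : IsCompact (Kc ι v a₀ K) := by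
  rw [Kc_eq h hι]
  exact (Homeo h hι a₀).isCompact_preimage.2 hK

theorem Kc_ne (h : Frame K φ v a) (hι : ∀ x, x ∈ ker φ ↔ ∃ u, ι u = x)
    (hK : (interior K).Nonempty) (a₀ : Eu n) : (interior (Kc ι v a₀ K)).Nonempty := by
  obtain ⟨x, hx⟩ := hK
  refine ⟨(Homeo h hι a₀).symm x, ?_⟩
  rw [Kc_int h hι, ← Homeo_apply h hι, Homeomorph.apply_symm_apply]
  exact hx

theorem Kc_down (h : Frame K φ v a) (hι : ∀ x, x ∈ ker φ ↔ ∃ u, ι u = x) (hK : Convex ℝ K)
    {a₀ : Eu n} (ha : ∀ i, φ i a₀ = a i) : Down (Kc ι v a₀ K) := by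
  classical
  have hpos : ∀ p ∈ Kc ι v a₀ K, ∀ i, 0 ≤ p.2 i := by
    intro p hp i
    have h1 := h.supp _ hp i
    rw [map_add, ha, phi_lin h hι] at h1
    linarith
  -- one coordinate to zero
  have hzero : ∀ (x : Eu k) (y : Fin m → ℝ) (i : Fin m), (x, y) ∈ Kc ι v a₀ K →
      (x, Function.update y i 0) ∈ Kc ι v a₀ K := by
    intro x y i hxy
    have h1 := h.proj _ hxy i
    rw [map_add, ha, phi_lin h hι] at h1
    show a₀ + lin ι v (x, Function.update y i 0) ∈ K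
    have h2 : a₀ + lin ι v (x, Function.update y i 0) =
        a₀ + lin ι v (x, y) - (a i + y i - a i) • v i := by
      rw [lin_apply, lin_apply]
      simp only
      have h3 : ∑ j, Function.update y i 0 j • v j = ∑ j, y j • v j - y i • v i := by
        rw [eq_sub_iff_add_eq, ← Finset.add_sum_erase _ _ (Finset.mem_univ i),
          ← Finset.add_sum_erase (Finset.univ) (fun j => y j • v j) (Finset.mem_univ i)]
        simp only [Function.update_self, zero_smul, zero_add]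
        rw [add_comm]
        congr 1
        refine Finset.sum_congr rfl fun j hj => ?_
        rw [Function.update_of_ne (Finset.ne_of_mem_erase hj)]
      rw [h3]
      module
    rw [h2]
    exact h1
  -- one coordinate
  have hone : ∀ (x : Eu k) (y : Fin m → ℝ) (i : Fin m) (s : ℝ), (x, y) ∈ Kc ι v a₀ K → 0 ≤ s →
      s ≤ y i → (x, Function.update y i s) ∈ Kc ι v a₀ K := by
    intro x y i s hxy hs hsy
    rcases hs.eq_or_lt with rfl | hs
    · exact hzero x y i hxy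
    · have hyi : 0 < y i := hs.trans_le hsy
      have h1 := Kc_convex (ι := ι) (v := v) hK a₀ hxy (hzero x y i hxy) (a := s / y i)
        (b := 1 - s / y i) (by positivity) (by rw [sub_nonneg, div_le_one hyi]; exact hsy)
        (by ring)
      convert h1 using 1
      refine Prod.ext ?_ ?_
      · simp only [Prod.fst_add, Prod.smul_fst]
        module
      · funext j
        simp only [Prod.snd_add, Prod.smul_snd, Pi.add_apply, Pi.smul_apply, smul_eq_mul]
        rcases eq_or_ne j i with rfl | hj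
        · rw [Function.update_self, Function.update_self]
          field_simp
          ring
        · rw [Function.update_of_ne hj, Function.update_of_ne hj]
          ring
  refine ⟨hpos, fun x y y' hxy h0 hle => ?_⟩
  have key : ∀ s : Finset (Fin m), (x, fun i => if i ∈ s then y' i else y i) ∈ Kc ι v a₀ K := by
    intro s
    induction s using Finset.induction_on with
    | empty => simpa using hxy
    | insert i s hi ih =>
      have h1 := hone x _ i (y' i) ih (h0 i) (by rw [if_neg hi]; exact hle i)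
      convert h1 using 2
      funext j
      rcases eq_or_ne j i with rfl | hj
      · simp
      · rw [Function.update_of_ne hj]
        simp [hj]
  simpa using key Finset.univ

/-- the intersection of `K` with the hyperplanes -/
def foot (K : Set (Eu n)) (φ : Fin m → (Eu n →ₗ[ℝ] ℝ)) (a : Fin m → ℝ) : Set (Eu n) :=
  {x | x ∈ K ∧ ∀ i, φ i x = a i}

theorem base_eq (h : Frame K φ v a) (hι : ∀ x, x ∈ ker φ ↔ ∃ u, ι u = x)
    {a₀ : Eu n} (ha : ∀ i, φ i a₀ = a i) : base (Kc ι v a₀ K) = Lset ι (foot K φ a) a₀ := by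
  ext u
  have h1 : a₀ + lin ι v (u, 0) = a₀ + ι u := by
    rw [lin_apply]
    simp
  constructor
  · intro hu
    have h2 : a₀ + lin ι v (u, 0) ∈ K := hu
    rw [h1] at h2
    refine ⟨h2, fun i => ?_⟩
    rw [map_add, mem_ker.1 ((hι _).2 ⟨u, rfl⟩) i, ha, add_zero]
  · intro hu
    have h2 : a₀ + ι u ∈ K := hu.1
    show a₀ + lin ι v (u, 0) ∈ K
    rw [h1]
    exact h2

/-- `K` meets the intersection of the hyperplanes. -/
theorem foot_ne (h : Frame K φ v a) (hK : K.Nonempty) : (foot K φ a).Nonempty := by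
  classical
  obtain ⟨x, hx⟩ := hK
  have key : ∀ s : Finset (Fin m), ∃ x ∈ K, ∀ i ∈ s, φ i x = a i := by
    intro s
    induction s using Finset.induction_on with
    | empty => exact ⟨x, hx, by simp⟩
    | insert i s hi ih =>
      obtain ⟨z, hz, h1⟩ := ih
      refine ⟨z - (φ i z - a i) • v i, h.proj z hz i, fun j hj => ?_⟩
      rw [map_sub, map_smul, h.dual]
      rcases Finset.mem_insert.1 hj with hji | hj'
      · subst hji
        simp
      · have hne : j ≠ i := fun hji => hi (hji ▸ hj')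
        rw [if_neg hne, h1 j hj']
        simp
  obtain ⟨z, hz, h1⟩ := key Finset.univ
  exact ⟨z, hz, fun i => h1 i (Finset.mem_univ i)⟩

theorem span_foot (h : Frame K φ v a) (hι : ∀ x, x ∈ ker φ ↔ ∃ u, ι u = x) (hK : Convex ℝ K)
    (hKi : (interior K).Nonempty) {a₀ : Eu n} (ha : ∀ i, φ i a₀ = a i) (x : Eu n) :
    x ∈ vectorSpan ℝ (foot K φ a) ↔ ∃ u, ι u = x := by
  rw [← hι]
  constructor
  · intro hx
    have h1 : vectorSpan ℝ (foot K φ a) ≤ ker φ := by
      rw [vectorSpan_def, Submodule.span_le]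
      rintro _ ⟨y, hy, z, hz, rfl⟩
      show y -ᵥ z ∈ ker φ
      rw [mem_ker]
      intro i
      rw [vsub_eq_sub, map_sub, hy.2 i, hz.2 i, sub_self]
    exact h1 hx
  · intro hx
    obtain ⟨u, rfl⟩ := (hι _).1 hx
    obtain ⟨u₀, hu₀⟩ := (Kc_down h hι hK ha).base_interior (Kc_ne h hι hKi a₀)
    obtain ⟨ε, hε, h1⟩ := Co.of_interior hu₀ u
    have h2 := interior_subset hu₀
    have h3 := interior_subset h1
    rw [base_eq h hι ha] at h2 h3
    have h4 := vsub_mem_vectorSpan ℝ (show a₀ + ι (u₀ + ε • u) ∈ foot K φ a from h3)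
      (show a₀ + ι u₀ ∈ foot K φ a from h2)
    rw [vsub_eq_sub, map_add, map_smul] at h4
    have h5 : a₀ + (ι u₀ + ε • ι u) - (a₀ + ι u₀) = ε • ι u := by abel
    rw [h5] at h4
    exact (Submodule.smul_mem_iff _ hε.ne').1 h4

/-- From directions in coordinates to a covering. -/
theorem cov_of_dirs (h : Frame K φ v a) (hι : ∀ x, x ∈ ker φ ↔ ∃ u, ι u = x) (hK : Convex ℝ K)
    (hKc : IsCompact K) (a₀ : Eu n) (D : Finset (Eu k × (Fin m → ℝ)))
    (hD : ∀ p ∈ Kc ι v a₀ K, ∃ d ∈ D, Co (Kc ι v a₀ K) p d) : Cov K D.card := by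
  classical
  obtain ⟨T, hT, h1⟩ := Pool.Agent.W677.Shadow.cover_of_dirs hK hKc (D.image (lin ι v)) (by
    intro x hx
    set p := (Homeo h hι a₀).symm x with hp
    have hpx : a₀ + lin ι v p = x := by
      rw [← Homeo_apply h hι, hp, Homeomorph.apply_symm_apply]
    obtain ⟨d, hd, ε, hε, h2⟩ := hD p (by
      show a₀ + lin ι v p ∈ K
      rw [hpx]; exact hx)
    refine ⟨lin ι v d, Finset.mem_image_of_mem _ hd, ε, hε, ?_⟩
    rw [Kc_int h hι, map_add, map_smul, ← add_assoc, hpx] at h2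
    exact h2)
  exact ⟨T, hT.trans Finset.card_image_le, h1⟩

theorem exists_coords (h : Frame K φ v a) :
    ∃ (k : ℕ) (ι : Eu k →ₗᵢ[ℝ] Eu n), k + m = n ∧ ∀ x, x ∈ ker φ ↔ ∃ u, ι u = x := by
  obtain ⟨ι, hι⟩ := coords (ker φ) rfl
  exact ⟨_, ι, finrank_ker h, hι⟩

/-- The bound in terms of the base in coordinates. -/
theorem bound_coords (h : Frame K φ v a) (hι : ∀ x, x ∈ ker φ ↔ ∃ u, ι u = x) (hK : Bdy K)
    {a₀ : Eu n} (ha : ∀ i, φ i a₀ = a i) {N : ℕ} (hN : Cov (base (Kc ι v a₀ K)) N) :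
    Cov K (2 ^ m * N) := by
  obtain ⟨hK1, hK2, hK3⟩ := hK
  obtain ⟨W, hW, hW1⟩ := dirs_of_cover hN
  obtain ⟨D, hD, hD1⟩ := (Kc_down h hι hK1 ha).dirs (Kc_convex hK1 a₀) (Kc_compact h hι hK2 a₀)
    (Kc_ne h hι hK3 a₀) W hW1
  obtain ⟨T, hT, h1⟩ := cov_of_dirs h hι hK1 hK2 a₀ D hD1
  exact ⟨T, hT.trans (hD.trans (Nat.mul_le_mul_left _ hW)), h1⟩

theorem bdy_base (h : Frame K φ v a) (hι : ∀ x, x ∈ ker φ ↔ ∃ u, ι u = x) (hK : Bdy K)
    {a₀ : Eu n} (ha : ∀ i, φ i a₀ = a i) : Bdy (base (Kc ι v a₀ K)) :=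
  ⟨base_convex (Kc_convex hK.1 a₀), base_compact (Kc_compact h hι hK.2.1 a₀),
    (Kc_down h hι hK.1 ha).base_interior (Kc_ne h hι hK.2.2 a₀)⟩

/-- a relative covering of the foot -/
theorem bound_rel (h : Frame K φ v a) (hK : Bdy K) {N : ℕ}
    (hN : ∃ T : Finset (Eu n), T.card ≤ N ∧
      foot K φ a ⊆ ⋃ t ∈ T, (fun x => t + x) '' intrinsicInterior ℝ (foot K φ a)) :
    Cov K (2 ^ m * N) := by
  obtain ⟨k, ι, -, hι⟩ := exists_coords h
  obtain ⟨a₀, ha₀⟩ := foot_ne h (hK.2.2.mono interior_subset)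
  refine bound_coords h hι hK ha₀.2 ?_
  rw [base_eq h hι ha₀.2]
  exact cov_of_rel (span_foot h hι hK.1 hK.2.2 ha₀.2) ha₀ hN

theorem bound_two (h : Frame K φ v a) (hK : Bdy K) (hn : n ≤ m + 2) : Cov K (2 ^ n) := by
  obtain ⟨k, ι, hk, hι⟩ := exists_coords h
  obtain ⟨a₀, ha₀⟩ := foot_ne h (hK.2.2.mono interior_subset)
  have h1 := bound_coords h hι hK ha₀.2 (body_le_two (by omega) (bdy_base h hι hK ha₀.2))
  rwa [← pow_add, add_comm, hk] at h1

theorem bound_ind (h : Frame K φ v a) (hK : Bdy K)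
    (hind : ∀ L : Set (Eu (n - m)), Bdy L → Cov L (2 ^ (n - m))) : Cov K (2 ^ n) := by
  obtain ⟨k, ι, hk, hι⟩ := exists_coords h
  obtain ⟨a₀, ha₀⟩ := foot_ne h (hK.2.2.mono interior_subset)
  have hk' : k = n - m := by omega
  subst hk'
  have h1 := bound_coords h hι hK ha₀.2 (hind _ (bdy_base h hι hK ha₀.2))
  rwa [← pow_add, add_comm, hk] at h1

end Pool.Agent.TH542.Had
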